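import Pool.Agent.Lib.MP_8d1505_an.Core

/-!
# `C(K)` can fail the Bishop-Phelps-Bollobas property for numerical radius

The definitions are those of the problem file: real Banach spaces, the state pairs `Π(X)`, the numerical
radius `ν`, and the Bishop-Phelps-Bollobas property for numerical radius, in which the distance of the
operators is measured by `ν`.

Counterexample: `G` an uncountable discrete space, `L` the product of the one-point compactifications of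
`ℕ` and of `G`, `M` the closed unit ball of the dual of `C(L)` with the weak-star topology, `K` the
disjoint union of `L` and `M`, and `T f (σ) = σ (f|L)` for `σ ∈ M`, `T f = 0` on `L`. The property fails
with `ε = 1/10` for every function `δ`.
-/

set_option autoImplicit false

namespace Pool.Agent.Results.MP_8d1505_an.NumericalRadiusBPB

open Pool.Agent.Lib.MP_8d1505_an

/-- `Π(X)`: the pairs `(x, x*)` of elements of the unit spheres of `X` and of `X*` with `x*(x) = 1`. -/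
def StatePairs (X : Type) [NormedAddCommGroup X] [NormedSpace ℝ X] : Set (X × (X →L[ℝ] ℝ)) :=
  {p | ‖p.1‖ = 1 ∧ ‖p.2‖ = 1 ∧ p.2 p.1 = 1}

/-- The numerical radius `ν(T)`, the supremum of `|x*(Tx)|` over the pairs `(x, x*)` in `Π(X)`. -/
noncomputable def numRadius {X : Type} [NormedAddCommGroup X] [NormedSpace ℝ X]
    (T : X →L[ℝ] X) : ℝ :=
  sSup {r : ℝ | ∃ p ∈ StatePairs X, r = |p.2 (T p.1)|}

/-- The Bishop-Phelps-Bollobas property for numerical radius of the real Banach space `X`: there is a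
function `δ : (0,1) → (0,1)` such that, whenever `0 < ε < 1`, `ν(T) = 1`, `(x, x*) ∈ Π(X)` and
`x*(Tx) ≥ 1 - δ(ε)`, there are an operator `T₀` with `ν(T₀) = 1` and a pair `(x₀, x₀*) ∈ Π(X)` with
`x₀*(T₀x₀) = 1`, `ν(T - T₀) ≤ ε`, `‖x - x₀‖ ≤ ε` and `‖x* - x₀*‖ ≤ ε`. -/
def HasBPBNumericalRadius (X : Type) [NormedAddCommGroup X] [NormedSpace ℝ X] : Prop :=
  ∃ δ : ℝ → ℝ, (∀ ε : ℝ, 0 < ε → ε < 1 → 0 < δ ε ∧ δ ε < 1) ∧
    ∀ ε : ℝ, 0 < ε → ε < 1 → ∀ T : X →L[ℝ] X, numRadius T = 1 →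
      ∀ (x : X) (x' : X →L[ℝ] ℝ), (x, x') ∈ StatePairs X → 1 - δ ε ≤ x' (T x) →
        ∃ (T₀ : X →L[ℝ] X) (x₀ : X) (x₀' : X →L[ℝ] ℝ), numRadius T₀ = 1 ∧
          (x₀, x₀') ∈ StatePairs X ∧ x₀' (T₀ x₀) = 1 ∧
          numRadius (T - T₀) ≤ ε ∧ ‖x - x₀‖ ≤ ε ∧ ‖x' - x₀'‖ ≤ ε

/-- point masses in the dual ball -/
noncomputable def pointMass (l : L) : M :=
  ⟨StrongDual.toWeakDual (ContinuousMap.evalCLM ℝ l : C(L, ℝ) →L[ℝ] ℝ), by
    intro f hf
    have hf1 : ‖f‖ ≤ 1 := by simpa using hf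
    exact (f.norm_coe_le_norm l).trans hf1⟩

lemma bddAbove_radius {X : Type} [NormedAddCommGroup X] [NormedSpace ℝ X] (S : X →L[ℝ] X) :
    BddAbove {r : ℝ | ∃ p ∈ StatePairs X, r = |p.2 (S p.1)|} := by
  refine ⟨‖S‖, ?_⟩
  rintro r ⟨p, ⟨hz, hh, _⟩, rfl⟩
  have e1 := p.2.le_opNorm (S p.1)
  have e2 := S.le_opNorm p.1
  rw [Real.norm_eq_abs, hh, one_mul] at e1
  rw [hz, mul_one] at e2
  exact e1.trans e2

lemma abs_le_numRadius {X : Type} [NormedAddCommGroup X] [NormedSpace ℝ X] (S : X →L[ℝ] X)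
    (z : X) (h : X →L[ℝ] ℝ) (hz : ‖z‖ = 1) (hh : ‖h‖ = 1) (hhz : h z = 1) :
    |h (S z)| ≤ numRadius S :=
  le_csSup (bddAbove_radius S) ⟨(z, h), ⟨hz, hh, hhz⟩, rfl⟩

lemma numRadius_T : numRadius T = 1 := by
  have h1 : ‖(1 : C(K, ℝ))‖ = 1 := norm_one
  apply IsGreatest.csSup_eq
  constructor
  · refine ⟨(1, ContinuousMap.evalCLM ℝ (Sum.inr (pointMass (OnePoint.infty, OnePoint.infty)))),
      ⟨h1, norm_eval _, by simp⟩, ?_⟩
    have : T (1 : C(K, ℝ)) (Sum.inr (pointMass (OnePoint.infty, OnePoint.infty))) = 1 := by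
      rw [T_inr]
      rfl
    simp only
    rw [ContinuousMap.evalCLM_apply, this, abs_one]
  · rintro r ⟨p, ⟨hz, hh, _⟩, rfl⟩
    have e1 := p.2.le_opNorm (T p.1)
    have e2 := T.le_opNorm p.1
    rw [Real.norm_eq_abs, hh, one_mul] at e1
    rw [hz, mul_one] at e2
    exact e1.trans (e2.trans norm_T_le)

/-- on `C(K)` the numerical radius controls the norm -/
lemma norm_le_of_numRadius (D : C(K, ℝ) →L[ℝ] C(K, ℝ)) (hD : numRadius D ≤ 1 / 10) :
    ‖D‖ ≤ 1 / 10 := by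
  have h1 : ∀ (z : C(K, ℝ)) (h : C(K, ℝ) →L[ℝ] ℝ), ‖z‖ = 1 → ‖h‖ = 1 → h z = 1 →
      |h (((10 : ℝ) • D) z)| ≤ 1 := by
    intro z h hz hh hhz
    have h2 := abs_le_numRadius D z h hz hh hhz
    have h3 : h (((10 : ℝ) • D) z) = 10 * h (D z) := by simp
    rw [h3, abs_mul, abs_of_pos (by norm_num : (0 : ℝ) < 10)]
    linarith
  refine ContinuousLinearMap.opNorm_le_of_unit_norm (by norm_num) fun z hz => ?_
  rw [ContinuousMap.norm_le _ (by norm_num)]
  intro k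
  have h4 := le_one_of_numradius ((10 : ℝ) • D) h1 z hz.le k
  have h5 : (((10 : ℝ) • D) z) k = 10 * (D z) k := by simp
  rw [h5, abs_mul, abs_of_pos (by norm_num : (0 : ℝ) < 10)] at h4
  rw [Real.norm_eq_abs]
  linarith

lemma not_hasBPB : ¬ HasBPBNumericalRadius C(K, ℝ) := by
  rintro ⟨δ, hδ, H⟩
  obtain ⟨hη, -⟩ := hδ (1 / 10) (by norm_num) (by norm_num)
  set η : ℝ := δ (1 / 10) with hηdef
  obtain ⟨n, hn⟩ := exists_nat_gt (2 / η)
  set m : ℕ := max n 18 with hm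
  have hm18 : 18 ≤ m := le_max_right _ _
  have hmn : n ≤ m := le_max_left _ _
  have hmη : 2 / η < m := lt_of_lt_of_le hn (by exact_mod_cast hmn)
  have hmpos : (0 : ℝ) < (m : ℝ) + 2 := by positivity
  have i₀ : Fin m := ⟨0, by omega⟩
  set σ₀ : M := conf m i₀ (fun _ => OnePoint.infty, OnePoint.infty) with hσ₀
  set f : C(K, ℝ) →L[ℝ] ℝ := ContinuousMap.evalCLM ℝ (Sum.inr σ₀) with hf
  have hT1 : T (1 : C(K, ℝ)) (Sum.inr σ₀) = m / (m + 2) := by
    rw [T_inr, hσ₀, conf_apply]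
    have h1 : ∀ l : L, resL (1 : C(K, ℝ)) l = 1 := fun l => rfl
    simp only [h1]
    rw [Finset.sum_const, Finset.card_univ, Fintype.card_fin, nsmul_eq_mul]
    field_simp
    ring
  have hfT : 1 - η ≤ f (T 1) := by
    rw [hf, ContinuousMap.evalCLM_apply, hT1, le_div_iff₀ hmpos]
    rw [div_lt_iff₀ hη] at hmη
    nlinarith
  obtain ⟨S, y, g, hS, ⟨hy, hg, hgy⟩, hgS, hTS, hxy, hfg⟩ :=
    H (1 / 10) (by norm_num) (by norm_num) T numRadius_T 1 f
      ⟨norm_one, norm_eval _, by simp [hf]⟩ hfT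
  simp only at hy hg hgy
  have hS1 : ∀ z : C(K, ℝ), ‖z‖ ≤ 1 → ∀ k, |S z k| ≤ 1 :=
    le_one_of_numradius S fun z h hz hh hhz => (abs_le_numRadius S z h hz hh hhz).trans hS.le
  have hSy : ‖S y‖ ≤ 1 := by
    rw [ContinuousMap.norm_le _ zero_le_one]
    exact hS1 y hy.le
  have hfg1 : ‖(ContinuousMap.evalCLM ℝ (Sum.inr σ₀) : C(K, ℝ) →L[ℝ] ℝ) - g‖ < 1 :=
    lt_of_le_of_lt hfg (by norm_num)
  have hpeak : S y (Sum.inr σ₀) = 1 := peak (S y) hSy g hg.le hgS (Sum.inr σ₀) hfg1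
  exact core S y hS1 hy.le hxy (norm_le_of_numRadius _ hTS) m hm18 i₀ hpeak

/-- **Main theorem.** There is a compact Hausdorff space `K` such that the real Banach space `C(K)` fails
the Bishop-Phelps-Bollobas property for numerical radius. -/
theorem result : ∃ (K : Type) (_ : TopologicalSpace K) (_ : CompactSpace K) (_ : T2Space K),
    ¬ HasBPBNumericalRadius C(K, ℝ) :=
  ⟨K, inferInstance, inferInstance, inferInstance, not_hasBPB⟩

end Pool.Agent.Results.MP_8d1505_an.NumericalRadiusBPB
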